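import Pool.Agent.Helper80.CT.Grow
import Pool.Agent.Helper80.CT.Geo
import Pool.Agent.Helper80.CT.Verify

/-!
# MP_980383_co: triangulations of the `n`-cube with at most `c^n n!` simplices, `c > (193/486)^(1/4) = 0.79383...`
-/

set_option autoImplicit false

namespace Pool.Agent.Results.MP_980383_co.SmallTriangulations

/-- For every `c > 0` with `c ^ 4 > 193 / 486` and all `n ≥ n₀(c)` the cube `[0,1]^n` has a
triangulation without new vertices with at most `c ^ n n!` simplices: `v s i` is the `i`-th vertex of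
the `s`-th simplex, the simplices are nondegenerate, their vertices are vertices of the cube, their
union is the cube, their interiors are disjoint, and any two of them meet in the convex hull of their
common vertices (a common face). -/
theorem result : ∀ c : ℝ, 0 < c → 193 / 486 < c ^ 4 → ∃ n₀ : ℕ, ∀ n ≥ n₀,
    ∃ (N : ℕ) (v : Fin N → Fin (n + 1) → Fin n → ℝ), (N : ℝ) ≤ c ^ n * n.factorial ∧
      (∀ s, AffineIndependent ℝ (v s)) ∧ (∀ s i j, v s i j = 0 ∨ v s i j = 1) ∧
      (⋃ s, convexHull ℝ (Set.range (v s))) = Set.Icc 0 1 ∧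
      (∀ s t, s ≠ t → Disjoint (interior (convexHull ℝ (Set.range (v s))))
        (interior (convexHull ℝ (Set.range (v t))))) ∧
      ∀ s t, convexHull ℝ (Set.range (v s)) ∩ convexHull ℝ (Set.range (v t)) =
        convexHull ℝ (Set.range (v s) ∩ Set.range (v t)) := by
  intro c hc hc4
  obtain ⟨D, h1, h2, h3⟩ := Pool.Agent.Helper80.CT.exists_D43
  obtain ⟨n₀, hn₀⟩ := Pool.Agent.Helper80.CT.exists_tri (l := 4) (m := 3) (by norm_num) (by norm_num)
    h1 h2 hc (by
      have h4 : (∑ τ ∈ D, Pool.Agent.Helper80.CT.wt τ) / ((3 : ℕ) : ℝ) ^ 4 ≤ (193 / 6) / 81 := by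
        have h5 : (((3 : ℕ) : ℝ)) ^ 4 = 81 := by norm_num
        rw [h5]
        exact div_le_div_of_nonneg_right h3 (by norm_num)
      exact lt_of_le_of_lt h4 (by linarith))
  refine ⟨n₀, fun n hn => ?_⟩
  obtain ⟨T, hT, hT2⟩ := hn₀ n hn
  obtain ⟨N, v, hN, h5⟩ := Pool.Agent.Helper80.CT.geo hT
  exact ⟨N, v, le_trans (by exact_mod_cast hN) hT2, h5⟩

end Pool.Agent.Results.MP_980383_co.SmallTriangulations
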